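import Pool.Agent.TH414.Mod.Main
import Mathlib.LinearAlgebra.Dimension.Finite

/-!
# Scalar-invariant sets over finite fields
-/

set_option autoImplicit false

namespace Pool.Agent.TH414.Mod

open Finset
open scoped Pointwise Classical

theorem reps {R : Type*} [Ring R] {Γ : Type*} [AddCommGroup Γ] [Module R Γ]
    (U : Submodule R Γ) (A : Finset Γ) :
    ∃ X : Finset Γ, X.card = (bar U A).card ∧ ∀ a ∈ A, ∃ x ∈ X, a - x ∈ U := by
  have hs : ∀ y : Γ ⧸ U, (Submodule.Quotient.mk (Quotient.out y : Γ) : Γ ⧸ U) = y :=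
    fun y => Quotient.out_eq' y
  refine ⟨(bar U A).image (fun y => (Quotient.out y : Γ)), ?_, ?_⟩
  · rw [Finset.card_image_of_injective]
    intro y y' h
    rw [← hs y, ← hs y']
    exact congrArg _ h
  · intro a ha
    refine ⟨Quotient.out (Submodule.Quotient.mk a : Γ ⧸ U),
      Finset.mem_image_of_mem _ (mem_bar ha), ?_⟩
    rw [← Submodule.Quotient.mk_eq_zero, Submodule.Quotient.mk_sub, hs, sub_self]

variable {F : Type*} [Field F] [Fintype F] {Γ : Type*} [AddCommGroup Γ] [Module F Γ]

theorem index_ge (V W : Submodule F Γ) (hW : Finite W) (h : V < W) :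
    Fintype.card F * Nat.card V ≤ Nat.card W := by
  obtain ⟨w, hwW, hwV⟩ := SetLike.exists_of_lt h
  have hVf : Finite V := Finite.of_injective _ (Submodule.inclusion_injective h.le)
  have h1 : Function.Injective (fun t : F × V =>
      (⟨t.1 • w + (t.2 : Γ), W.add_mem (W.smul_mem _ hwW) (h.le t.2.2)⟩ : W)) := by
    rintro ⟨c, y⟩ ⟨c', y'⟩ heq
    have h2 : c • w + (y : Γ) = c' • w + (y' : Γ) := congrArg Subtype.val heq
    have h3 : (c - c') • w = (y' : Γ) - y := by
      rw [sub_smul, sub_eq_sub_iff_add_eq_add, h2, add_comm]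
    have h4 : c = c' := by
      by_contra hne
      apply hwV
      have h5 : w = (c - c')⁻¹ • ((y' : Γ) - y) := by
        rw [← h3, inv_smul_smul₀ (sub_ne_zero.2 hne)]
      rw [h5]
      exact V.smul_mem _ (V.sub_mem y'.2 y.2)
    subst h4
    have h5 : y = y' := Subtype.ext (add_left_cancel h2)
    rw [h5]
  have h2 := Nat.card_le_card_of_injective _ h1
  rwa [Nat.card_prod, Nat.card_eq_fintype_card] at h2

/-- a scalar-invariant set of small doubling over a large finite field is dense in its span -/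
theorem cone (K : ℝ) (hK : 1 ≤ K) (hq : 16 * K ^ 4 < Fintype.card F)
    (A : Finset Γ) (hA : A.Nonempty) (hinv : ∀ c : F, c ≠ 0 → ∀ a ∈ A, c • a ∈ A)
    (hdbl : ((A + A).card : ℝ) ≤ K * A.card) :
    ∃ H : Submodule F Γ, Finite H ∧ (∀ a ∈ A, a ∈ H) ∧ (Nat.card H : ℝ) ≤ 2 * K * A.card := by
  have hA0 : (0 : ℝ) < A.card := by exact_mod_cast hA.card_pos
  have hΓ : ∀ V W : Submodule F Γ, Finite W → V < W →
      16 * K ^ 4 * Nat.card V < Nat.card W := by
    intro V W hW hVW
    have hVf : Finite V := Finite.of_injective _ (Submodule.inclusion_injective hVW.le)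
    have h1 : (Fintype.card F : ℝ) * Nat.card V ≤ Nat.card W := by
      exact_mod_cast index_ge V W hW hVW
    have h2 : (0 : ℝ) < Nat.card V := by exact_mod_cast Nat.card_pos
    exact lt_of_lt_of_le (mul_lt_mul_of_pos_right hq h2) h1
  have hdil : ∀ c : F, ((A + nd c A).card : ℝ) ≤ K * A.card := by
    intro c
    by_cases hc : c = 0
    · have h1 : nd c A = {0} := by
        rw [hc]
        simp only [nd, zero_smul]
        exact Finset.image_const hA 0
      rw [h1, Finset.singleton_zero, add_zero]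
      nlinarith
    · have h1 : nd c A ⊆ A := by
        intro x hx
        obtain ⟨a, ha, rfl⟩ := Finset.mem_image.1 hx
        exact hinv c hc a ha
      refine le_trans ?_ hdbl
      exact_mod_cast Finset.card_le_card (Finset.add_subset_add_left h1)
  obtain ⟨U, hfin, hc, hU⟩ := structure_thm A hA K hK hΓ hdil
  refine ⟨U, hfin, ?_, hU⟩
  intro a ha
  by_contra haU
  have h1 : (Finset.univ.erase (0 : F)).card ≤ (bar U A).card := by
    refine Finset.card_le_card_of_injOn (fun c => (Submodule.Quotient.mk (c • a) : Γ ⧸ U)) ?_ ?_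
    · intro c hc
      rw [Finset.mem_coe, Finset.mem_erase] at hc
      exact Finset.mem_coe.2 (mem_bar (hinv c hc.1 a ha))
    · intro c _ d _ heq
      by_contra hne
      apply haU
      have h2 : (c - d) • a ∈ U := by
        rw [← Submodule.Quotient.mk_eq_zero, sub_smul, Submodule.Quotient.mk_sub, sub_eq_zero]
        exact heq
      have h3 : a = (c - d)⁻¹ • ((c - d) • a) := by
        rw [inv_smul_smul₀ (sub_ne_zero.2 hne)]
      rw [h3]
      exact U.smul_mem _ h2
  rw [Finset.card_erase_of_mem (Finset.mem_univ _), Finset.card_univ] at h1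
  have hq1 : 1 ≤ Fintype.card F := Fintype.card_pos
  have h2 : (Fintype.card F : ℝ) - 1 ≤ K := by
    have h3 : ((Fintype.card F - 1 : ℕ) : ℝ) ≤ (bar U A).card := by exact_mod_cast h1
    rw [Nat.cast_sub hq1] at h3
    push_cast at h3
    linarith
  have h3 : K ≤ K ^ 4 := by
    calc K = K ^ 1 := (pow_one K).symm
      _ ≤ K ^ 4 := pow_le_pow_right₀ hK (by norm_num)
  have h4 : 1 ≤ K ^ 4 := one_le_pow₀ hK
  linarith

end Pool.Agent.TH414.Mod
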