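import Pool.Agent.TH414.Mod.Rigid

/-!
# Sums of dilates in modules: the energy step
-/

set_option autoImplicit false

namespace Pool.Agent.TH414.Mod

open Finset
open scoped Pointwise Classical ComplexConjugate

variable {R : Type*} [Ring R] {Γ : Type*} [AddCommGroup Γ] [Module R Γ]

/-- pairs of `A` in the same coset of `V` -/
noncomputable def rr (V : Submodule R Γ) (A : Finset Γ) : Finset (Γ × Γ) :=
  (A ×ˢ A).filter (fun p => p.1 - p.2 ∈ V)

theorem rr_card_le (V : Submodule R Γ) (A : Finset Γ) : (rr V A).card ≤ A.card ^ 2 := by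
  rw [sq, ← Finset.card_product]
  exact Finset.card_filter_le _ _

/-- the number of additive quadruples inside cosets of `U` -/
noncomputable def NU (U : Submodule R Γ) (A : Finset Γ) (n : R) : ℕ :=
  ((rr U A ×ˢ rr U A).filter (fun t => (t.1.1 - t.1.2) + n • (t.2.1 - t.2.2) = 0)).card

theorem NU_good (U : Submodule R Γ) (A : Finset Γ) (n : R) (h : Good U A n) :
    A.card ^ 4 ≤ (A + nd n A).card * NU U A n := by
  have h1 := Dil.coincidences (A ×ˢ A) (A + nd n A) (fun p => p.1 + n • p.2) (by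
    rintro ⟨a, b⟩ hp
    rw [mem_product] at hp
    exact Finset.add_mem_add hp.1 (Finset.mem_image_of_mem _ hp.2))
  rw [card_product] at h1
  calc A.card ^ 4 = (A.card * A.card) ^ 2 := by ring
    _ ≤ _ := h1
    _ ≤ _ := by
      refine Nat.mul_le_mul_left _ ?_
      refine Finset.card_le_card_of_injOn
        (fun p => ((p.1.1, p.2.1), (p.1.2, p.2.2))) ?_ ?_
      · rintro ⟨⟨a, b⟩, ⟨c, d⟩⟩ hp
        simp only [coe_filter, mem_product, Set.mem_ofPred_eq] at hp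
        obtain ⟨⟨⟨ha, hb⟩, hc, hd⟩, he⟩ := hp
        have h2 : (Submodule.Quotient.mk a : Γ ⧸ U) + n • (Submodule.Quotient.mk b : Γ ⧸ U) =
            (Submodule.Quotient.mk c : Γ ⧸ U) + n • (Submodule.Quotient.mk d : Γ ⧸ U) := by
          rw [← Submodule.Quotient.mk_smul, ← Submodule.Quotient.mk_smul,
            ← Submodule.Quotient.mk_add, ← Submodule.Quotient.mk_add, he]
        obtain ⟨h3, h4⟩ := h _ (mem_bar ha) _ (mem_bar hb) _ (mem_bar hc) _ (mem_bar hd) h2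
        have h5 : a - c ∈ U := by
          rw [← Submodule.Quotient.mk_eq_zero, Submodule.Quotient.mk_sub, h3, sub_self]
        have h6 : b - d ∈ U := by
          rw [← Submodule.Quotient.mk_eq_zero, Submodule.Quotient.mk_sub, h4, sub_self]
        simp only [coe_filter, mem_product, Set.mem_ofPred_eq, rr, mem_filter]
        refine ⟨⟨⟨⟨ha, hc⟩, h5⟩, ⟨hb, hd⟩, h6⟩, ?_⟩
        rw [smul_sub]
        have h7 : a + n • b - (c + n • d) = 0 := sub_eq_zero.2 he
        rw [← h7]; abel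
      · rintro ⟨⟨a, b⟩, ⟨c, d⟩⟩ _ ⟨⟨a', b'⟩, ⟨c', d'⟩⟩ _ heq
        simp only [Prod.mk.injEq] at heq ⊢
        exact ⟨⟨heq.1.1, heq.2.1⟩, heq.1.2, heq.2.2⟩

/-! ### characters of the finite module `U` -/

section chars

variable (U : Submodule R Γ)

/-- extension by zero of a character of `U` -/
noncomputable def cext (χ : AddChar U ℂ) (x : Γ) : ℂ := if h : x ∈ U then χ ⟨x, h⟩ else 0

variable {U}

theorem cext_mem (χ : AddChar U ℂ) {x : Γ} (h : x ∈ U) : cext U χ x = χ ⟨x, h⟩ := dif_pos h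

/-- the largest submodule in the kernel of a character of `U`, as a submodule of `Γ` -/
def cker (χ : AddChar U ℂ) : Submodule R Γ where
  carrier := {x | ∃ h : x ∈ U, ∀ r : R, χ (r • ⟨x, h⟩) = 1}
  zero_mem' := ⟨U.zero_mem, fun r => by
    have : r • (⟨0, U.zero_mem⟩ : U) = 0 := smul_zero r
    rw [this, χ.map_zero_eq_one]⟩
  add_mem' := by
    rintro x y ⟨hx, hx'⟩ ⟨hy, hy'⟩
    refine ⟨U.add_mem hx hy, fun r => ?_⟩
    have : r • (⟨x + y, U.add_mem hx hy⟩ : U) = r • ⟨x, hx⟩ + r • ⟨y, hy⟩ :=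
      smul_add r (⟨x, hx⟩ : U) ⟨y, hy⟩
    rw [this, χ.map_add_eq_mul, hx', hy', one_mul]
  smul_mem' := by
    rintro s x ⟨hx, hx'⟩
    refine ⟨U.smul_mem s hx, fun r => ?_⟩
    have : r • (⟨s • x, U.smul_mem s hx⟩ : U) = (r * s) • (⟨x, hx⟩ : U) :=
      smul_smul r s (⟨x, hx⟩ : U)
    rw [this, hx']

theorem cker_le (χ : AddChar U ℂ) : cker χ ≤ U := fun _ h => h.1

theorem cker_ne (χ : AddChar U ℂ) (hχ : χ ≠ 0) : cker χ ≠ U := by
  intro h
  apply hχ
  ext x
  have : (x : Γ) ∈ cker χ := by rw [h]; exact x.2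
  obtain ⟨h1, h2⟩ := this
  simpa using h2 1

/-- the transform of the difference representation function -/
noncomputable def rhat (A : Finset Γ) (χ : AddChar U ℂ) : ℂ := ∑ p ∈ rr U A, cext U χ (p.1 - p.2)

theorem rhat_zero (A : Finset Γ) : rhat A (0 : AddChar U ℂ) = (rr U A).card := by
  rw [rhat, Finset.card_eq_sum_ones]
  push_cast
  refine Finset.sum_congr rfl fun p hp => ?_
  simp only [rr, mem_filter] at hp
  rw [cext_mem _ hp.2]
  simp

variable [Finite U]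

theorem rhat_nonneg (A : Finset Γ) (χ : AddChar U ℂ) :
    ∃ R : ℝ, 0 ≤ R ∧ rhat A χ = R := by
  have hs : ∀ y : Γ ⧸ U, (Submodule.Quotient.mk (Quotient.out y : Γ) : Γ ⧸ U) = y :=
    fun y => Quotient.out_eq' y
  have hmem : ∀ a : Γ, a - Quotient.out (Submodule.Quotient.mk a : Γ ⧸ U) ∈ U := by
    intro a
    rw [← Submodule.Quotient.mk_eq_zero, Submodule.Quotient.mk_sub, hs, sub_self]
  let g : Γ → ℂ := fun a => χ ⟨a - Quotient.out (Submodule.Quotient.mk a : Γ ⧸ U), hmem a⟩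
  refine ⟨∑ y ∈ bar U A, Complex.normSq
      (∑ a ∈ A.filter (fun a => (Submodule.Quotient.mk a : Γ ⧸ U) = y), g a),
    Finset.sum_nonneg fun y _ => Complex.normSq_nonneg _, ?_⟩
  have h1 : rhat A χ = ∑ p ∈ rr U A, g p.1 * conj (g p.2) := by
    refine Finset.sum_congr rfl fun p hp => ?_
    simp only [rr, mem_filter] at hp
    rw [cext_mem χ hp.2]
    simp only [g]
    rw [← AddChar.map_neg_eq_conj, ← AddChar.map_add_eq_mul]
    congr 1
    apply Subtype.ext
    have h2 : (Submodule.Quotient.mk p.1 : Γ ⧸ U) = (Submodule.Quotient.mk p.2 : Γ ⧸ U) := by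
      rw [← sub_eq_zero, ← Submodule.Quotient.mk_sub]
      exact (Submodule.Quotient.mk_eq_zero _).2 hp.2
    simp only [Submodule.coe_add, NegMemClass.coe_neg, h2]
    abel
  rw [h1]
  have h3 : ∑ p ∈ rr U A, g p.1 * conj (g p.2) =
      ∑ y ∈ bar U A, ∑ p ∈ (rr U A).filter (fun p => (Submodule.Quotient.mk p.1 : Γ ⧸ U) = y),
        g p.1 * conj (g p.2) := by
    symm
    refine Finset.sum_fiberwise_of_maps_to
      (g := fun p : Γ × Γ => (Submodule.Quotient.mk p.1 : Γ ⧸ U)) ?_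
      (fun p => g p.1 * conj (g p.2))
    intro p hp
    simp only [rr, mem_filter, mem_product] at hp
    exact mem_bar hp.1.1
  rw [h3]
  push_cast
  refine Finset.sum_congr rfl fun y _ => ?_
  rw [Complex.normSq_eq_conj_mul_self, mul_comm, map_sum, Finset.sum_mul_sum,
    ← Finset.sum_product']
  refine Finset.sum_congr ?_ fun _ _ => rfl
  ext p
  simp only [rr, mem_filter, mem_product]
  constructor
  · rintro ⟨⟨⟨ha, hb⟩, hab⟩, hy⟩
    refine ⟨⟨ha, hy⟩, hb, ?_⟩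
    rw [← hy, eq_comm, ← sub_eq_zero, ← Submodule.Quotient.mk_sub]
    exact (Submodule.Quotient.mk_eq_zero _).2 hab
  · rintro ⟨⟨ha, hy⟩, hb, hy'⟩
    refine ⟨⟨⟨ha, hb⟩, ?_⟩, hy⟩
    rw [← Submodule.Quotient.mk_eq_zero, Submodule.Quotient.mk_sub, hy, hy', sub_self]

theorem sum_cext [Fintype (AddChar U ℂ)] (x : Γ) (hx : x ∈ U) :
    ∑ χ : AddChar U ℂ, cext U χ x = if x = 0 then (Nat.card U : ℂ) else 0 := by
  have : Fintype U := Fintype.ofFinite U
  have h1 : ∑ χ : AddChar U ℂ, cext U χ x = ∑ χ : AddChar U ℂ, χ ⟨x, hx⟩ :=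
    Finset.sum_congr rfl fun χ _ => cext_mem χ hx
  rw [h1]
  have h2 := AddChar.sum_apply_eq_ite (⟨x, hx⟩ : U)
  rw [Nat.card_eq_fintype_card]
  have h3 : ((⟨x, hx⟩ : U) = 0) ↔ x = 0 :=
    ⟨fun h => congrArg Subtype.val h, fun h => Subtype.ext h⟩
  simp only [h3] at h2
  rw [← h2]
  exact Finset.sum_congr (by ext; simp) fun _ _ => rfl

theorem sum_rhat [Fintype (AddChar U ℂ)] (A : Finset Γ) :
    ∑ χ : AddChar U ℂ, rhat A χ = (Nat.card U : ℂ) * A.card := by
  simp only [rhat]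
  rw [Finset.sum_comm]
  have h1 : ∀ p ∈ rr U A, ∑ χ : AddChar U ℂ, cext U χ (p.1 - p.2) =
      if p.1 = p.2 then (Nat.card U : ℂ) else 0 := by
    intro p hp
    simp only [rr, mem_filter] at hp
    rw [sum_cext _ hp.2]
    simp only [sub_eq_zero]
  rw [Finset.sum_congr rfl h1, ← Finset.sum_filter, Finset.sum_const, nsmul_eq_mul, mul_comm]
  congr 2
  have : (rr U A).filter (fun p => p.1 = p.2) = A.image (fun a => (a, a)) := by
    ext ⟨a, b⟩
    simp only [rr, mem_filter, mem_product, mem_image, Prod.mk.injEq]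
    constructor
    · rintro ⟨⟨⟨ha, -⟩, -⟩, rfl⟩
      exact ⟨a, ha, rfl, rfl⟩
    · rintro ⟨c, hc, rfl, rfl⟩
      exact ⟨⟨⟨hc, hc⟩, by simp⟩, rfl⟩
  rw [this, Finset.card_image_of_injective]
  intro a b h
  exact (Prod.mk.inj h).1

theorem energy_identity [Fintype (AddChar U ℂ)] (A : Finset Γ) (Q : ℕ) (L : Finset R)
    (hL : IsMult Q U A L) :
    ∑ n ∈ L, (Nat.card U : ℂ) * (NU U A n : ℂ) =
      L.card * ∑ χ : AddChar U ℂ, rhat A χ * ((rr (cker χ) A).card : ℂ) := by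
  have h1 : ∀ n : R, (Nat.card U : ℂ) * (NU U A n : ℂ) =
      ∑ χ : AddChar U ℂ, rhat A χ * ∑ q ∈ rr U A, (cext U χ (n • (q.1 - q.2))) := by
    intro n
    simp only [NU, rhat]
    rw [Finset.card_filter]
    push_cast
    rw [Finset.mul_sum]
    simp only [Finset.sum_mul_sum]
    rw [Finset.sum_comm, Finset.sum_product]
    refine Finset.sum_congr rfl fun p hp => ?_
    rw [Finset.sum_comm]
    refine Finset.sum_congr rfl fun q hq => ?_
    simp only [rr, mem_filter] at hp hq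
    have h2 : p.1 - p.2 + n • (q.1 - q.2) ∈ U := U.add_mem hp.2 (U.smul_mem n hq.2)
    have h3 := sum_cext (U := U) _ h2
    have h4 : ∀ χ : AddChar U ℂ, cext U χ (p.1 - p.2 + n • (q.1 - q.2)) =
        cext U χ (p.1 - p.2) * cext U χ (n • (q.1 - q.2)) := by
      intro χ
      rw [cext_mem χ h2, cext_mem χ hp.2, cext_mem χ (U.smul_mem n hq.2),
        ← AddChar.map_add_eq_mul]
      rfl
    rw [← Finset.sum_congr rfl fun χ _ => h4 χ, h3]
    split_ifs <;> simp
  rw [Finset.sum_congr rfl fun n _ => h1 n, Finset.sum_comm, Finset.mul_sum]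
  refine Finset.sum_congr rfl fun χ _ => ?_
  rw [← Finset.mul_sum, mul_left_comm]
  congr 1
  rw [Finset.sum_comm]
  have h5 : ∀ q ∈ rr U A, ∑ n ∈ L, cext U χ (n • (q.1 - q.2)) =
      if q.1 - q.2 ∈ cker χ then (L.card : ℂ) else 0 := by
    intro q hq
    simp only [rr, mem_filter] at hq
    have h6 : ∀ n ∈ L, cext U χ (n • (q.1 - q.2)) = χ (n • ⟨q.1 - q.2, hq.2⟩) := by
      intro n _
      rw [cext_mem χ (U.smul_mem n hq.2)]
      rfl
    rw [Finset.sum_congr rfl h6, hL.equi χ ⟨q.1 - q.2, hq.2⟩]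
    have : (∀ r : R, χ (r • ⟨q.1 - q.2, hq.2⟩) = 1) ↔ q.1 - q.2 ∈ cker χ :=
      ⟨fun h => ⟨hq.2, h⟩, fun ⟨_, h⟩ => h⟩
    simp only [this]
  rw [Finset.sum_congr rfl h5, ← Finset.sum_filter, Finset.sum_const, nsmul_eq_mul, mul_comm]
  congr 2
  congr 1
  ext q
  simp only [rr, mem_filter]
  constructor
  · rintro ⟨⟨h1, -⟩, h2⟩; exact ⟨h1, h2⟩
  · rintro ⟨h1, h2⟩; exact ⟨⟨h1, cker_le χ h2⟩, h2⟩

/-- the averaged energy inequality -/
theorem energy_le (A : Finset Γ) (Q : ℕ) (L : Finset R) (hL : IsMult Q U A L) (M : ℝ)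
    (hM0 : 0 ≤ M)
    (hM : ∀ V : Submodule R Γ, V ≤ U → V ≠ U → ((rr V A).card : ℝ) ≤ M) :
    (Nat.card U : ℝ) * ∑ n ∈ L, (NU U A n : ℝ) ≤
      L.card * ((A.card : ℝ) ^ 4 + M * (Nat.card U * A.card)) := by
  have hfin : Finite (AddChar U ℂ) := inferInstance
  have : Fintype (AddChar U ℂ) := Fintype.ofFinite _
  choose R' hR0 hR using fun χ : AddChar U ℂ => rhat_nonneg A χ
  have h1 := energy_identity (U := U) A Q L hL
  have h2 := sum_rhat (U := U) A
  simp only [hR] at h1 h2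
  have h1' : (Nat.card U : ℝ) * ∑ n ∈ L, (NU U A n : ℝ) =
      L.card * ∑ χ : AddChar U ℂ, R' χ * ((rr (cker χ) A).card : ℝ) := by
    rw [Finset.mul_sum]
    exact_mod_cast h1
  have h2' : ∑ χ : AddChar U ℂ, R' χ = (Nat.card U : ℝ) * A.card := by exact_mod_cast h2
  have h3 : R' 0 = (rr U A).card := by
    have := hR 0
    rw [rhat_zero] at this
    exact_mod_cast this.symm
  rw [h1']
  refine mul_le_mul_of_nonneg_left ?_ (Nat.cast_nonneg _)
  have h4 : ∀ χ : AddChar U ℂ, R' χ * ((rr (cker χ) A).card : ℝ) ≤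
      (if χ = 0 then (A.card : ℝ) ^ 4 else 0) + M * R' χ := by
    intro χ
    by_cases hχ : χ = 0
    · rw [if_pos hχ, hχ]
      have h5 : R' 0 ≤ (A.card : ℝ) ^ 2 := by
        rw [h3]; exact_mod_cast rr_card_le U A
      have h6 : ((rr (cker (0 : AddChar U ℂ)) A).card : ℝ) ≤ (A.card : ℝ) ^ 2 := by
        exact_mod_cast rr_card_le _ A
      have h7 : R' 0 * ((rr (cker (0 : AddChar U ℂ)) A).card : ℝ) ≤
          (A.card : ℝ) ^ 2 * (A.card : ℝ) ^ 2 :=
        mul_le_mul h5 h6 (Nat.cast_nonneg _) (by positivity)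
      have h8 : 0 ≤ M * R' 0 := mul_nonneg hM0 (hR0 0)
      calc _ ≤ _ := h7
        _ = (A.card : ℝ) ^ 4 := by ring
        _ ≤ _ := le_add_of_nonneg_right h8
    · rw [if_neg hχ, zero_add, mul_comm]
      exact mul_le_mul_of_nonneg_right (hM _ (cker_le χ) (cker_ne χ hχ)) (hR0 χ)
  calc ∑ χ : AddChar U ℂ, R' χ * ((rr (cker χ) A).card : ℝ)
      ≤ ∑ χ : AddChar U ℂ, ((if χ = 0 then (A.card : ℝ) ^ 4 else 0) + M * R' χ) :=
        Finset.sum_le_sum fun χ _ => h4 χ
    _ = (A.card : ℝ) ^ 4 + M * (Nat.card U * A.card) := by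
        rw [Finset.sum_add_distrib, Finset.sum_ite_eq' Finset.univ (0 : AddChar U ℂ),
          if_pos (Finset.mem_univ _), ← Finset.mul_sum, h2']

end chars

end Pool.Agent.TH414.Mod
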