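import Pool.Agent.TH414.Mod.Energy
import Pool.Agent.TH414.Dil.Final

/-!
# Sums of dilates in modules: the structure theorem
-/

set_option autoImplicit false

namespace Pool.Agent.TH414.Mod

open Finset
open scoped Pointwise Classical

variable {R : Type*} [Ring R] {Γ : Type*} [AddCommGroup Γ] [Module R Γ]

/-- choice of a multiplier for every point of an orbit -/
theorem exists_pre {M : Type*} [AddCommGroup M] [Module R M] (u : M) :
    ∃ pre : M → R, ∀ y ∈ Set.range (fun r : R => r • u), pre y • u = y := by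
  have hpre : ∀ y : M, ∃ r : R, y ∈ Set.range (fun r : R => r • u) → r • u = y := by
    intro y
    by_cases hy : y ∈ Set.range (fun r : R => r • u)
    · obtain ⟨r, hr⟩ := hy
      exact ⟨r, fun _ => hr⟩
    · exact ⟨0, fun h => absurd h hy⟩
  choose pre hpre using hpre
  exact ⟨pre, hpre⟩

/-- adding one generator -/
theorem sup_span (U : Submodule R Γ) [Finite U] (x : Γ)
    (hf : (Set.range (fun r : R => r • (Submodule.Quotient.mk x : Γ ⧸ U))).Finite) :
    Finite (U ⊔ Submodule.span R {x} : Submodule R Γ) ∧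
    Nat.card (U ⊔ Submodule.span R {x} : Submodule R Γ) ≤
      Nat.card U * (Set.range (fun r : R => r • (Submodule.Quotient.mk x : Γ ⧸ U))).ncard := by
  obtain ⟨pre, hpre⟩ := exists_pre (R := R) (Submodule.Quotient.mk x : Γ ⧸ U)
  set S := Set.range (fun r : R => r • (Submodule.Quotient.mk x : Γ ⧸ U)) with hS
  have hSf : Finite S := hf
  have h1 : Function.Surjective (fun t : U × S =>
      (⟨(t.1 : Γ) + pre t.2 • x, Submodule.add_mem _ (Submodule.mem_sup_left t.1.2)
        (Submodule.mem_sup_right (Submodule.smul_mem _ _ (Submodule.mem_span_singleton_self x)))⟩ :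
        (U ⊔ Submodule.span R {x} : Submodule R Γ))) := by
    rintro ⟨w, hw⟩
    obtain ⟨y, hy, z, hz, rfl⟩ := Submodule.mem_sup.1 hw
    obtain ⟨r, rfl⟩ := Submodule.mem_span_singleton.1 hz
    have hmem : r • (Submodule.Quotient.mk x : Γ ⧸ U) ∈ S := ⟨r, rfl⟩
    have h2 : (r - pre (r • (Submodule.Quotient.mk x : Γ ⧸ U))) • x ∈ U := by
      rw [← Submodule.Quotient.mk_eq_zero, Submodule.Quotient.mk_smul, sub_smul, hpre _ hmem,
        sub_self]
    refine ⟨(⟨y + (r - pre (r • (Submodule.Quotient.mk x : Γ ⧸ U))) • x, U.add_mem hy h2⟩,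
      ⟨_, hmem⟩), ?_⟩
    apply Subtype.ext
    simp only
    rw [sub_smul]; abel
  refine ⟨Finite.of_surjective _ h1, ?_⟩
  have h2 := Nat.card_le_card_of_surjective _ h1
  rwa [Nat.card_prod, Nat.card_coe_set_eq] at h2

/-- the module hypothesis gives large orbits modulo finite submodules -/
theorem LST_of (Q : ℕ)
    (hΓ : ∀ V W : Submodule R Γ, Finite W → V < W → Q * Nat.card V ≤ Nat.card W)
    (U : Submodule R Γ) [Finite U] (A : Finset Γ) : LST Q U A := by
  intro β hβ δ hδ hne hf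
  obtain ⟨b, hb, rfl⟩ := exists_rep hβ
  obtain ⟨d, hd, rfl⟩ := exists_rep hδ
  rw [← Submodule.Quotient.mk_sub] at hf hne ⊢
  obtain ⟨h1, h2⟩ := sup_span U (b - d) hf
  have h3 : U < U ⊔ Submodule.span R {b - d} := by
    refine lt_of_le_of_ne le_sup_left fun h => hne ?_
    rw [Submodule.Quotient.mk_eq_zero, h]
    exact Submodule.mem_sup_right (Submodule.mem_span_singleton_self _)
  have h4 := hΓ _ _ h1 h3
  have h5 : Nat.card U * Q ≤ Nat.card U *
      (Set.range (fun r : R => r • (Submodule.Quotient.mk (b - d) : Γ ⧸ U))).ncard := by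
    rw [mul_comm]; exact le_trans h4 h2
  exact Nat.le_of_mul_le_mul_left h5 Nat.card_pos

theorem nd_one (A : Finset Γ) : nd (1 : R) A = A := by
  simp [nd]

theorem bar_card (V : Submodule R Γ) (A : Finset Γ) :
    (bar V A).card = (Dil.bar V.toAddSubgroup A).card := by
  unfold bar Dil.bar
  have h4 : ∀ (d1 d2 : DecidableEq (Γ ⧸ V.toAddSubgroup)),
      (@Finset.image _ _ d1 (fun a => (QuotientAddGroup.mk a : Γ ⧸ V.toAddSubgroup)) A).card =
      (@Finset.image _ _ d2 (fun a => (QuotientAddGroup.mk a : Γ ⧸ V.toAddSubgroup)) A).card := by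
    intro d1 d2
    rw [Subsingleton.elim d1 d2]
  exact h4 _ _

/-- a popular coset of `V` bounds the number of cosets -/
theorem few_cosets (V : Submodule R Γ) (A : Finset Γ) (K m : ℝ)
    (h1 : ((A + A).card : ℝ) ≤ K * A.card) (hm : 0 < m) (hr : m * A.card ≤ (rr V A).card)
    (hA : A.Nonempty) : ((bar V A).card : ℝ) * m ≤ K * A.card := by
  have h2 := Dil.few_cosets V.toAddSubgroup A K m hm h1 hr hA
  rw [bar_card]
  exact h2

/-- the descent step -/
theorem step (A : Finset Γ) (hA : A.Nonempty) (K : ℝ) (hK : 1 ≤ K) (Q : ℕ)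
    (hQ : 16 * K ^ 4 < Q)
    (hΓ : ∀ V W : Submodule R Γ, Finite W → V < W → Q * Nat.card V ≤ Nat.card W)
    (hdil : ∀ n : R, ((A + nd n A).card : ℝ) ≤ K * A.card)
    (U : Submodule R Γ) [Finite U] (hc : ((bar U A).card : ℝ) ≤ K)
    (hU : 2 * K * A.card < (Nat.card U : ℝ)) :
    ∃ V : Submodule R Γ, V ≤ U ∧ V ≠ U ∧ ((bar V A).card : ℝ) ≤ K := by
  have hA0 : (0 : ℝ) < A.card := by exact_mod_cast hA.card_pos
  have hK0 : 0 < K := by linarith
  have hQ0 : (0 : ℝ) < Q := lt_trans (by positivity) hQ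
  obtain ⟨L, hL⟩ := exists_mult U A Q (LST_of Q hΓ U A)
  have hbad := bad_count U A Q L hL
  have hNr : (0 : ℝ) < L.card := by exact_mod_cast hL.nonempty.card_pos
  -- a popular submodule
  obtain ⟨V, hVU, hVne, hV⟩ : ∃ V : Submodule R Γ, V ≤ U ∧ V ≠ U ∧
      7 / 16 * (A.card : ℝ) ^ 2 / K ≤ (rr V A).card := by
    by_contra hcon
    push Not at hcon
    have h1 := energy_le (U := U) A Q L hL (7 / 16 * (A.card : ℝ) ^ 2 / K) (by positivity)
      (fun V h h' => (hcon V h h').le)
    -- lower bound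
    set good := L.filter (fun n => Good U A n) with hgood
    have h2 : ((good.card : ℕ) : ℝ) * ((A.card : ℝ) ^ 3 / K) ≤ ∑ n ∈ L, (NU U A n : ℝ) := by
      calc ((good.card : ℕ) : ℝ) * ((A.card : ℝ) ^ 3 / K)
          = ∑ n ∈ good, (A.card : ℝ) ^ 3 / K := by rw [Finset.sum_const, nsmul_eq_mul]
        _ ≤ ∑ n ∈ good, (NU U A n : ℝ) := by
            refine Finset.sum_le_sum fun n hn => ?_
            have h3 := NU_good U A n (Finset.mem_filter.1 hn).2
            have h4 : (A.card : ℝ) ^ 4 ≤ (A + nd n A).card * (NU U A n : ℝ) := by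
              exact_mod_cast h3
            have h5 : (A.card : ℝ) ^ 4 ≤ (K * A.card) * (NU U A n : ℝ) :=
              h4.trans (mul_le_mul_of_nonneg_right (hdil n) (Nat.cast_nonneg _))
            rw [div_le_iff₀ hK0]
            have h6 : (A.card : ℝ) * (A.card : ℝ) ^ 3 ≤ A.card * ((NU U A n : ℝ) * K) := by
              nlinarith [h5]
            exact le_of_mul_le_mul_left h6 hA0
        _ ≤ ∑ n ∈ L, (NU U A n : ℝ) :=
            Finset.sum_le_sum_of_subset_of_nonneg (Finset.filter_subset _ _)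
              fun _ _ _ => Nat.cast_nonneg _
    have h3 : (15 / 16 : ℝ) * L.card ≤ good.card := by
      have h4 : good.card + (L.filter (fun n => ¬ Good U A n)).card = L.card := by
        rw [hgood, Finset.card_filter_add_card_filter_not]
      have h5 : (good.card : ℝ) + ((L.filter (fun n => ¬ Good U A n)).card : ℝ) = L.card := by
        exact_mod_cast h4
      have h6 : (Q : ℝ) * ((L.filter (fun n => ¬ Good U A n)).card : ℝ) ≤
          ((bar U A).card : ℝ) ^ 4 * L.card := by exact_mod_cast hbad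
      have h7 : ((bar U A).card : ℝ) ^ 4 ≤ K ^ 4 :=
        pow_le_pow_left₀ (Nat.cast_nonneg _) hc 4
      have h8 : (Q : ℝ) * ((L.filter (fun n => ¬ Good U A n)).card : ℝ) ≤
          Q * (L.card / 16) := by
        calc _ ≤ _ := h6
          _ ≤ K ^ 4 * L.card := mul_le_mul_of_nonneg_right h7 hNr.le
          _ ≤ (Q / 16) * L.card := mul_le_mul_of_nonneg_right (by linarith) hNr.le
          _ = _ := by ring
      have h9 := le_of_mul_le_mul_left h8 hQ0
      linarith
    -- combine
    have hUc : (0 : ℝ) < Nat.card U := by exact_mod_cast Nat.card_pos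
    have h4 : (15 / 16 : ℝ) * L.card * ((A.card : ℝ) ^ 3 / K) ≤ ∑ n ∈ L, (NU U A n : ℝ) :=
      le_trans (mul_le_mul_of_nonneg_right h3 (by positivity)) h2
    have h5 : (Nat.card U : ℝ) * ((15 / 16 : ℝ) * L.card * ((A.card : ℝ) ^ 3 / K)) ≤
        L.card * ((A.card : ℝ) ^ 4 + 7 / 16 * (A.card : ℝ) ^ 2 / K * (Nat.card U * A.card)) :=
      le_trans (mul_le_mul_of_nonneg_left h4 hUc.le) h1
    have h6 : (L.card : ℝ) * ((A.card : ℝ) ^ 3 / K * ((Nat.card U : ℝ) / 2)) ≤
        L.card * ((A.card : ℝ) ^ 3 / K * (K * A.card)) := by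
      have e1 : (A.card : ℝ) ^ 4 = (A.card : ℝ) ^ 3 / K * (K * A.card) := by
        field_simp
      have e2 : 7 / 16 * (A.card : ℝ) ^ 2 / K * (Nat.card U * A.card) =
          7 / 16 * ((A.card : ℝ) ^ 3 / K * Nat.card U) := by
        field_simp
      rw [e1, e2] at h5
      nlinarith [h5]
    have h7 := le_of_mul_le_mul_left h6 hNr
    have h8 := le_of_mul_le_mul_left h7 (by positivity)
    linarith
  have : Finite V := Finite.of_injective _ (Submodule.inclusion_injective hVU)
  refine ⟨V, hVU, hVne, ?_⟩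
  have hd1 := hdil 1
  rw [nd_one] at hd1
  have h1 := few_cosets V A K (7 / 16 * A.card / K) hd1 (by positivity) (by
    refine le_trans (le_of_eq ?_) hV
    field_simp) hA
  have h2 : ((bar V A).card : ℝ) ≤ 16 / 7 * K ^ 2 := by
    have h3 : (A.card : ℝ) * ((bar V A).card : ℝ) ≤ A.card * (16 / 7 * K ^ 2) := by
      have e1 : ((bar V A).card : ℝ) * (7 / 16 * A.card / K) =
          (A.card : ℝ) * ((bar V A).card : ℝ) * (7 / (16 * K)) := by
        field_simp
      rw [e1] at h1
      have e2 : (0 : ℝ) < 7 / (16 * K) := by positivity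
      rw [← le_div_iff₀ e2] at h1
      refine le_trans h1 (le_of_eq ?_)
      field_simp
    exact le_of_mul_le_mul_left h3 hA0
  have h3 : 2 * (bar V A).card ^ 2 ≤ Q := by
    have h4 : (2 : ℝ) * ((bar V A).card : ℝ) ^ 2 ≤ Q := by
      have h5 : ((bar V A).card : ℝ) ^ 2 ≤ (16 / 7 * K ^ 2) ^ 2 :=
        pow_le_pow_left₀ (Nat.cast_nonneg _) h2 2
      nlinarith [h5, hQ, pow_pos hK0 4]
    exact_mod_cast h4
  have hLST := LST_of Q hΓ V A
  have h4 := weak_rigid V A hA K hdil Q hLST h3
  refine strong_rigid V A hA K hdil Q hLST ?_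
  have h5 : ((bar V A).card : ℝ) ^ 4 ≤ (2 * K) ^ 4 :=
    pow_le_pow_left₀ (Nat.cast_nonneg _) h4 4
  have h6 : ((bar V A).card : ℝ) ^ 4 < Q := by
    calc _ ≤ _ := h5
      _ = 16 * K ^ 4 := by ring
      _ < _ := hQ
  exact_mod_cast h6

/-- the starting submodule -/
theorem start (A : Finset Γ) (hA : A.Nonempty) (K : ℝ)
    (hdil : ∀ n : R, ((A + nd n A).card : ℝ) ≤ K * A.card) :
    ∃ U : Submodule R Γ, Finite U ∧ ((bar U A).card : ℝ) ≤ K := by
  set S : Finset Γ := ((A ×ˢ A).image (fun p => p.1 - p.2)).filter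
    (fun x => (Set.range (fun r : R => r • x)).Finite) with hS
  set U := Submodule.span R (S : Set Γ) with hU
  have hfin : Finite U := by
    have h1 : (U : Set Γ) ⊆ (fun g : {x // x ∈ S} → Γ => ∑ x, g x) ''
        {g : {x // x ∈ S} → Γ | ∀ x : {x // x ∈ S}, g x ∈
          Set.range (fun r : R => r • (x : Γ))} := by
      intro y hy
      obtain ⟨f, -, hf⟩ := Submodule.mem_span_finset.1 hy
      refine ⟨fun x => f x • (x : Γ), fun x => ⟨f x, rfl⟩, ?_⟩
      rw [← hf]
      exact Finset.sum_coe_sort S (fun x => f x • x)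
    have h2 : ({g : {x // x ∈ S} → Γ | ∀ x : {x // x ∈ S}, g x ∈
          Set.range (fun r : R => r • (x : Γ))}).Finite :=
      Set.Finite.pi' fun x => (Finset.mem_filter.1 x.2).2
    exact ((h2.image _).subset h1).to_subtype
  refine ⟨U, hfin, ?_⟩
  refine strong_rigid U A hA K hdil ((bar U A).card ^ 4 + 1) ?_ (Nat.lt_succ_self _)
  intro β hβ δ hδ hne hf
  exfalso
  obtain ⟨b, hb, rfl⟩ := exists_rep hβ
  obtain ⟨d, hd, rfl⟩ := exists_rep hδ
  rw [← Submodule.Quotient.mk_sub] at hf hne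
  apply hne
  rw [Submodule.Quotient.mk_eq_zero]
  refine Submodule.subset_span ?_
  rw [hS, Finset.mem_coe, Finset.mem_filter]
  refine ⟨Finset.mem_image.2 ⟨(b, d), Finset.mem_product.2 ⟨hb, hd⟩, rfl⟩, ?_⟩
  obtain ⟨h1, -⟩ := sup_span U (b - d) hf
  have h2 : (Set.range (fun r : R => r • (b - d))) ⊆
      ((U ⊔ Submodule.span R {b - d} : Submodule R Γ) : Set Γ) := by
    rintro _ ⟨r, rfl⟩
    exact Submodule.mem_sup_right (Submodule.smul_mem _ _ (Submodule.mem_span_singleton_self _))
  exact (Set.toFinite ((U ⊔ Submodule.span R {b - d} : Submodule R Γ) : Set Γ)).subset h2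

/-- **Structure theorem for sets in modules all of whose sums of dilates are small.** -/
theorem structure_thm (A : Finset Γ) (hA : A.Nonempty) (K : ℝ) (hK : 1 ≤ K)
    (hΓ : ∀ V W : Submodule R Γ, Finite W → V < W → 16 * K ^ 4 * Nat.card V < Nat.card W)
    (hdil : ∀ n : R, ((A + nd n A).card : ℝ) ≤ K * A.card) :
    ∃ U : Submodule R Γ, Finite U ∧ ((bar U A).card : ℝ) ≤ K ∧
      (Nat.card U : ℝ) ≤ 2 * K * A.card := by
  set Q := ⌊16 * K ^ 4⌋₊ + 1 with hQ
  have hQ' : 16 * K ^ 4 < Q := by rw [hQ]; push_cast; exact Nat.lt_floor_add_one _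
  have hΓ' : ∀ V W : Submodule R Γ, Finite W → V < W → Q * Nat.card V ≤ Nat.card W := by
    intro V W hW hVW
    have hVfin : Finite V := Finite.of_injective _ (Submodule.inclusion_injective hVW.le)
    have hV0 : 0 < Nat.card V := Nat.card_pos
    obtain ⟨k, hk⟩ : Nat.card V ∣ Nat.card W :=
      AddSubgroup.card_dvd_of_le (H := V.toAddSubgroup) (K := W.toAddSubgroup) hVW.le
    have h1 := hΓ V W hW hVW
    rw [hk] at h1 ⊢
    have hV1 : (0 : ℝ) < Nat.card V := by exact_mod_cast hV0
    have h2 : 16 * K ^ 4 < k := by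
      push_cast at h1
      have h3 : (Nat.card V : ℝ) * (16 * K ^ 4) < Nat.card V * k := by linarith
      exact lt_of_mul_lt_mul_left h3 hV1.le
    have h3 : ⌊16 * K ^ 4⌋₊ < k := (Nat.floor_lt (by positivity)).2 h2
    rw [mul_comm]
    exact Nat.mul_le_mul_left _ h3
  have key : ∀ k : ℕ, ∀ U : Submodule R Γ, Finite U → Nat.card U = k →
      ((bar U A).card : ℝ) ≤ K → ∃ U : Submodule R Γ, Finite U ∧ ((bar U A).card : ℝ) ≤ K ∧
      (Nat.card U : ℝ) ≤ 2 * K * A.card := by
    intro k
    induction k using Nat.strong_induction_on with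
    | _ k ih =>
      intro U hfin hUk hc
      by_cases h : (Nat.card U : ℝ) ≤ 2 * K * A.card
      · exact ⟨U, hfin, hc, h⟩
      · push Not at h
        obtain ⟨V, hVU, hVne, hVc⟩ := step A hA K hK Q hQ' hΓ' hdil U hc h
        have hVfin : Finite V := Finite.of_injective _ (Submodule.inclusion_injective hVU)
        refine ih (Nat.card V) ?_ V hVfin rfl hVc
        rw [← hUk]
        have hlt : (V : Set Γ) ⊂ (U : Set Γ) := by
          rw [Set.ssubset_iff_subset_ne]
          exact ⟨hVU, fun h => hVne (SetLike.coe_injective h)⟩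
        have := Set.ncard_lt_ncard hlt (Set.toFinite (U : Set Γ))
        rw [← Nat.card_coe_set_eq, ← Nat.card_coe_set_eq] at this
        exact this
  obtain ⟨U, hfin, hc⟩ := start A hA K hdil
  exact key _ U hfin rfl hc

end Pool.Agent.TH414.Mod
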