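import Pool.Agent.TH414.Dil.Energy
import Mathlib.GroupTheory.CosetCover
import Mathlib.LinearAlgebra.Quotient.Basic
import Mathlib.LinearAlgebra.Span.Basic

/-!
# Sums of dilates in modules: equidistributed multipliers
-/

set_option autoImplicit false

namespace Pool.Agent.TH414.Mod

open Finset
open scoped Pointwise Classical

variable {R : Type*} [Ring R] {Γ : Type*} [AddCommGroup Γ] [Module R Γ]

/-- the multiplication map `r ↦ r • u` -/
def mulBy {M : Type*} [AddCommGroup M] [Module R M] (u : M) : R →+ M where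
  toFun r := r • u
  map_zero' := zero_smul R u
  map_add' a b := add_smul a b u

/-- the multiplication tables on finitely many elements -/
def table (U : Submodule R Γ) (D : Finset (Γ ⧸ U)) :
    R →+ ((U → Γ) × ({x // x ∈ D} → Γ ⧸ U)) where
  toFun r := (fun x => r • (x : Γ), fun u => r • (u : Γ ⧸ U))
  map_zero' := by
    ext <;> simp
  map_add' a b := by
    ext <;> simp [add_smul]

theorem table_finite (U : Submodule R Γ) [Finite U] (D : Finset (Γ ⧸ U))
    (hD : ∀ u ∈ D, (Set.range (fun r : R => r • u)).Finite) :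
    Finite (table U D).range := by
  have h1 : ((table U D).range : Set ((U → Γ) × ({x // x ∈ D} → Γ ⧸ U))) ⊆
      {f : U → Γ | ∀ x, f x ∈ (U : Set Γ)} ×ˢ
      {g : {x // x ∈ D} → Γ ⧸ U | ∀ u : {x // x ∈ D},
        g u ∈ Set.range (fun r : R => r • (u : Γ ⧸ U))} := by
    rintro _ ⟨r, rfl⟩
    refine ⟨fun x => U.smul_mem r x.2, fun u => ⟨r, rfl⟩⟩
  have h2 : ({f : U → Γ | ∀ x, f x ∈ (U : Set Γ)} ×ˢ
      {g : {x // x ∈ D} → Γ ⧸ U | ∀ u : {x // x ∈ D}, g u ∈
        Set.range (fun r : R => r • (u : Γ ⧸ U))}).Finite := by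
    refine Set.Finite.prod (Set.Finite.pi' fun _ => Set.toFinite _)
      (Set.Finite.pi' fun u => hD u u.2)
  exact (h2.subset h1).to_subtype

/-- representatives avoiding finitely many infinite-index cosets -/
theorem exists_rep_avoid (U : Submodule R Γ) [Finite U] (D : Finset (Γ ⧸ U))
    (hD : ∀ u ∈ D, (Set.range (fun r : R => r • u)).Finite)
    (E : Finset (Γ ⧸ U)) (hE : ∀ u ∈ E, ¬ (Set.range (fun r : R => r • u)).Finite)
    (W : Finset (Γ ⧸ U)) (ρ : (table U D).range) :
    ∃ r : R, table U D r = ρ ∧ ∀ u ∈ E, ∀ w ∈ W, r • u ≠ w := by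
  have hfin := table_finite U D hD
  have : Fintype (table U D).range := Fintype.ofFinite _
  by_contra hcon
  push Not at hcon
  have hrep : ∀ σ : (table U D).range, ∃ r : R, table U D r = σ := fun σ => σ.2
  choose rep hrep using hrep
  have hsol : ∀ t : (Γ ⧸ U) × (Γ ⧸ U), ∃ r : R, (∃ r' : R, r' • t.1 = t.2) → r • t.1 = t.2 := by
    intro t
    by_cases h : ∃ r' : R, r' • t.1 = t.2
    · obtain ⟨r', h'⟩ := h
      exact ⟨r', fun _ => h'⟩
    · exact ⟨0, fun h' => absurd h' h⟩
  choose sol hsol using hsol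
  let H : (table U D).range ⊕ ((Γ ⧸ U) × (Γ ⧸ U)) → AddSubgroup R :=
    Sum.elim (fun _ => (table U D).ker) (fun t => (mulBy (R := R) t.1).ker)
  let g : (table U D).range ⊕ ((Γ ⧸ U) × (Γ ⧸ U)) → R := Sum.elim rep sol
  let s : Finset ((table U D).range ⊕ ((Γ ⧸ U) × (Γ ⧸ U))) :=
    (Finset.univ.erase ρ).disjSum (E ×ˢ W)
  have hcov : ⋃ i ∈ s, g i +ᵥ (H i : Set R) = Set.univ := by
    rw [Set.eq_univ_iff_forall]
    intro r
    rw [Set.mem_iUnion₂]
    by_cases hr : table U D r = ρ
    · obtain ⟨u, hu, w, hw, h⟩ := hcon r hr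
      refine ⟨Sum.inr (u, w), ?_, ?_⟩
      · simp only [s, Finset.inr_mem_disjSum]
        exact Finset.mem_product.2 ⟨hu, hw⟩
      · have h1 := hsol (u, w) ⟨r, h⟩
        refine Set.mem_vadd_set.2 ⟨r - sol (u, w), ?_, ?_⟩
        · show (r - sol (u, w)) ∈ (mulBy (R := R) u).ker
          rw [AddMonoidHom.mem_ker]
          show (r - sol (u, w)) • u = 0
          rw [sub_smul, h, h1, sub_self]
        · show sol (u, w) + (r - sol (u, w)) = r
          abel
    · refine ⟨Sum.inl ⟨table U D r, r, rfl⟩, ?_, ?_⟩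
      · simp only [s, Finset.inl_mem_disjSum, Finset.mem_erase, Finset.mem_univ, and_true]
        intro h
        exact hr (congrArg Subtype.val h)
      · refine Set.mem_vadd_set.2 ⟨r - rep ⟨table U D r, r, rfl⟩, ?_, ?_⟩
        · show (r - rep ⟨table U D r, r, rfl⟩) ∈ (table U D).ker
          rw [AddMonoidHom.mem_ker, map_sub, hrep, sub_self]
        · show rep ⟨table U D r, r, rfl⟩ + (r - rep ⟨table U D r, r, rfl⟩) = r
          abel
  have h2 := AddSubgroup.leftCoset_cover_filter_FiniteIndex hcov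
  have h3 : rep ρ ∈ ⋃ k ∈ s.filter (fun i => (H i).FiniteIndex), g k +ᵥ (H k : Set R) := by
    rw [h2]; exact Set.mem_univ _
  rw [Set.mem_iUnion₂] at h3
  obtain ⟨i, hi, h4⟩ := h3
  rw [Finset.mem_filter] at hi
  rcases i with σ | t
  · have hσ : σ ≠ ρ := by
      have := hi.1
      simp only [s, Finset.inl_mem_disjSum, Finset.mem_erase, Finset.mem_univ, and_true] at this
      exact this
    obtain ⟨k, hk, hk'⟩ := Set.mem_vadd_set.1 h4
    have hk1 : table U D k = 0 := AddMonoidHom.mem_ker.1 hk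
    have hk2 : rep σ + k = rep ρ := hk'
    apply hσ
    apply Subtype.ext
    rw [← hrep σ, ← hrep ρ, ← hk2, map_add, hk1, add_zero]
  · have ht : t.1 ∈ E := by
      have := hi.1
      simp only [s, Finset.inr_mem_disjSum] at this
      exact (Finset.mem_product.1 this).1
    apply hE _ ht
    have hfi : ((mulBy (R := R) t.1).ker).FiniteIndex := hi.2
    have hf : Finite (R ⧸ (mulBy (R := R) t.1).ker) :=
      AddSubgroup.finite_quotient_of_finiteIndex
    have hr : Finite (mulBy (R := R) t.1).range :=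
      Finite.of_equiv _ (QuotientAddGroup.quotientKerEquivRange (mulBy (R := R) t.1)).toEquiv
    have : (Set.range (fun r : R => r • t.1)) = ((mulBy (R := R) t.1).range : Set (Γ ⧸ U)) := by
      ext y; rfl
    rw [this]
    exact Set.toFinite _

/-- the set of cosets of `U` met by `A` -/
noncomputable def bar (U : Submodule R Γ) (A : Finset Γ) : Finset (Γ ⧸ U) :=
  A.image (fun a => (Submodule.Quotient.mk a : Γ ⧸ U))

/-- differences of cosets met by `A` generate infinite or large submodules -/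
def LST (Q : ℕ) (U : Submodule R Γ) (A : Finset Γ) : Prop :=
  ∀ β ∈ bar U A, ∀ δ ∈ bar U A, β - δ ≠ 0 →
    (Set.range (fun r : R => r • (β - δ))).Finite →
      Q ≤ (Set.range (fun r : R => r • (β - δ))).ncard

/-- the multiplier set: equidistributed on `U`, and sending differences to differences rarely -/
structure IsMult (Q : ℕ) (U : Submodule R Γ) (A : Finset Γ) (L : Finset R) : Prop where
  nonempty : L.Nonempty
  rare : ∀ β ∈ bar U A, ∀ δ ∈ bar U A, β - δ ≠ 0 → ∀ α ∈ bar U A, ∀ γ ∈ bar U A,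
    Q * (L.filter (fun r => r • (β - δ) = γ - α)).card ≤ L.card
  equi : ∀ χ : AddChar U ℂ, ∀ v : U, ∑ r ∈ L, χ (r • v) =
    if ∀ r : R, χ (r • v) = 1 then (L.card : ℂ) else 0

theorem exists_mult (U : Submodule R Γ) [Finite U] (A : Finset Γ) (Q : ℕ) (hQ : LST Q U A) :
    ∃ L : Finset R, IsMult Q U A L := by
  set W : Finset (Γ ⧸ U) := (bar U A ×ˢ bar U A).image (fun t => t.1 - t.2) with hW
  have hWmem : ∀ β ∈ bar U A, ∀ δ ∈ bar U A, β - δ ∈ W := fun β hβ δ hδ =>
    Finset.mem_image.2 ⟨(β, δ), Finset.mem_product.2 ⟨hβ, hδ⟩, rfl⟩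
  set D := W.filter (fun u => (Set.range (fun r : R => r • u)).Finite) with hDdef
  set E := W.filter (fun u => ¬ (Set.range (fun r : R => r • u)).Finite) with hEdef
  have hD : ∀ u ∈ D, (Set.range (fun r : R => r • u)).Finite :=
    fun u hu => (Finset.mem_filter.1 hu).2
  have hE : ∀ u ∈ E, ¬ (Set.range (fun r : R => r • u)).Finite :=
    fun u hu => (Finset.mem_filter.1 hu).2
  have hfin := table_finite U D hD
  have : Fintype (table U D).range := Fintype.ofFinite _
  have hrep := exists_rep_avoid U D hD E hE W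
  choose rep hrep1 hrep2 using hrep
  have hinj : Function.Injective rep := by
    intro ρ σ h
    apply Subtype.ext
    rw [← hrep1 ρ, ← hrep1 σ, h]
  refine ⟨Finset.univ.image rep, ?_, ?_, ?_⟩
  · exact ⟨rep 0, Finset.mem_image_of_mem _ (Finset.mem_univ _)⟩
  · intro β hβ δ hδ hne α hα γ hγ
    set u := β - δ with hu
    set w := γ - α with hw
    by_cases hf : (Set.range (fun r : R => r • u)).Finite
    · have huD : u ∈ D := Finset.mem_filter.2 ⟨hWmem β hβ δ hδ, hf⟩
      have hQ' := hQ β hβ δ hδ hne hf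
      rw [Finset.card_image_of_injective _ hinj]
      have h1 : ((Finset.univ.image rep).filter (fun r => r • u = w)).card ≤
          ((Finset.univ : Finset (table U D).range).filter
            (fun ρ => ρ.1.2 ⟨u, huD⟩ = w)).card := by
        refine Finset.card_le_card_of_surjOn rep ?_
        intro r hr
        rw [Finset.mem_coe, Finset.mem_filter, Finset.mem_image] at hr
        obtain ⟨⟨ρ, -, rfl⟩, h⟩ := hr
        refine ⟨ρ, ?_, rfl⟩
        rw [Finset.mem_coe, Finset.mem_filter]
        refine ⟨Finset.mem_univ _, ?_⟩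
        rw [← hrep1 ρ]
        exact h
      refine le_trans (Nat.mul_le_mul hQ' h1) ?_
      -- the fibre times the orbit embeds in the group
      set F := (Finset.univ : Finset (table U D).range).filter
        (fun ρ => ρ.1.2 ⟨u, huD⟩ = w) with hF
      rw [Set.ncard_eq_toFinset_card _ hf, ← Finset.card_product]
      have hpre : ∀ y : Γ ⧸ U, ∃ r : R, y ∈ Set.range (fun r : R => r • u) → r • u = y := by
        intro y
        by_cases hy : y ∈ Set.range (fun r : R => r • u)
        · obtain ⟨r, hr⟩ := hy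
          exact ⟨r, fun _ => hr⟩
        · exact ⟨0, fun h => absurd h hy⟩
      choose pre hpre using hpre
      refine Finset.card_le_card_of_injOn
        (fun t => t.2 + ⟨table U D (pre t.1), pre t.1, rfl⟩) (fun _ _ => Finset.mem_univ _) ?_
      rintro ⟨y, ρ⟩ ht ⟨y', ρ'⟩ ht' heq
      rw [Finset.mem_coe, Finset.mem_product, Set.Finite.mem_toFinset] at ht ht'
      have h2 : ρ.1 + table U D (pre y) = ρ'.1 + table U D (pre y') := congrArg Subtype.val heq
      have h3 : ρ.1.2 ⟨u, huD⟩ + pre y • u = ρ'.1.2 ⟨u, huD⟩ + pre y' • u :=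
        congrFun (congrArg Prod.snd h2) ⟨u, huD⟩
      rw [(Finset.mem_filter.1 ht.2).2, (Finset.mem_filter.1 ht'.2).2, hpre y ht.1,
        hpre y' ht'.1] at h3
      have h4 : y = y' := add_left_cancel h3
      subst h4
      have h5 : ρ.1 = ρ'.1 := add_right_cancel h2
      rw [Subtype.ext h5]
    · have huE : u ∈ E := Finset.mem_filter.2 ⟨hWmem β hβ δ hδ, hf⟩
      have : (Finset.univ.image rep).filter (fun r => r • u = w) = ∅ := by
        rw [Finset.filter_eq_empty_iff]
        intro r hr
        obtain ⟨ρ, -, rfl⟩ := Finset.mem_image.1 hr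
        exact hrep2 ρ u huE w (hWmem γ hγ α hα)
      rw [this]; simp
  · intro χ v
    rw [Finset.sum_image (fun _ _ _ _ h => hinj h), Finset.card_image_of_injective _ hinj]
    split_ifs with h
    · simp only [h]
      rw [Finset.sum_const, nsmul_eq_mul, mul_one]
    · push Not at h
      obtain ⟨r₀, hr₀⟩ := h
      -- shift
      set σ : (table U D).range := ⟨table U D r₀, r₀, rfl⟩ with hσ
      have hval : ∀ ρ : (table U D).range, ∀ r : R, table U D r = ρ →
          r • (v : Γ) = ρ.1.1 v := by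
        intro ρ r h
        rw [← h]; rfl
      have h1 : ∀ ρ : (table U D).range, χ (rep (ρ + σ) • v) = χ (rep ρ • v) * χ (r₀ • v) := by
        intro ρ
        rw [← AddChar.map_add_eq_mul, ← add_smul]
        congr 1
        apply Subtype.ext
        show rep (ρ + σ) • (v : Γ) = (rep ρ + r₀) • (v : Γ)
        rw [hval _ _ (hrep1 (ρ + σ)), add_smul, hval _ _ (hrep1 ρ), hval σ r₀ rfl]
        rfl
      have h2 : ∑ ρ : (table U D).range, χ (rep ρ • v) =
          (∑ ρ : (table U D).range, χ (rep ρ • v)) * χ (r₀ • v) := by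
        rw [Finset.sum_mul, ← Finset.sum_congr rfl fun ρ _ => h1 ρ]
        exact (Equiv.sum_comp (Equiv.addRight σ) (fun ρ => χ (rep ρ • v))).symm
      have h3 : (∑ ρ : (table U D).range, χ (rep ρ • v)) * (χ (r₀ • v) - 1) = 0 := by
        rw [mul_sub, ← h2, mul_one, sub_self]
      rcases mul_eq_zero.1 h3 with h4 | h4
      · exact h4
      · exact absurd (sub_eq_zero.1 h4) hr₀

end Pool.Agent.TH414.Mod
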