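import Pool.Agent.TH414.Mod.Mult

/-!
# Sums of dilates in modules: rigidity of the set of cosets
-/

set_option autoImplicit false

namespace Pool.Agent.TH414.Mod

open Finset
open scoped Pointwise Classical

variable {R : Type*} [Ring R] {Γ : Type*} [AddCommGroup Γ] [Module R Γ]

/-- the dilate `r · A` -/
noncomputable def nd (r : R) (A : Finset Γ) : Finset Γ := A.image (fun a => r • a)

theorem mem_bar {U : Submodule R Γ} {A : Finset Γ} {a : Γ} (ha : a ∈ A) :
    (Submodule.Quotient.mk a : Γ ⧸ U) ∈ bar U A := Finset.mem_image_of_mem _ ha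

theorem exists_rep {U : Submodule R Γ} {A : Finset Γ} {y : Γ ⧸ U} (hy : y ∈ bar U A) :
    ∃ a ∈ A, (Submodule.Quotient.mk a : Γ ⧸ U) = y := by
  simpa [bar] using hy

/-- pairs with a unique sum -/
noncomputable def Pset (U : Submodule R Γ) (A : Finset Γ) (n : R) : Finset (Γ × (Γ ⧸ U)) :=
  (A ×ˢ bar U A).filter (fun t => ∀ γ ∈ bar U A, ∀ δ ∈ bar U A,
    (Submodule.Quotient.mk t.1 : Γ ⧸ U) + n • t.2 = γ + n • δ →
      γ = (Submodule.Quotient.mk t.1 : Γ ⧸ U) ∧ δ = t.2)

theorem Pset_card (U : Submodule R Γ) (A : Finset Γ) (n : R) :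
    (Pset U A n).card ≤ (A + nd n A).card := by
  have hs : ∀ y : Γ ⧸ U, ∃ a : Γ, y ∈ bar U A → a ∈ A ∧ (Submodule.Quotient.mk a : Γ ⧸ U) = y := by
    intro y
    by_cases hy : y ∈ bar U A
    · obtain ⟨a, ha, hay⟩ := exists_rep hy
      exact ⟨a, fun _ => ⟨ha, hay⟩⟩
    · exact ⟨0, fun h => absurd h hy⟩
  choose s hs using hs
  refine Finset.card_le_card_of_injOn (fun t => t.1 + n • s t.2) ?_ ?_
  · rintro ⟨a, β⟩ ht
    simp only [Pset, coe_filter, mem_product, Set.mem_ofPred_eq] at ht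
    have hβ := hs β ht.1.2
    exact Finset.mem_coe.2 (Finset.add_mem_add ht.1.1 (Finset.mem_image_of_mem _ hβ.1))
  · rintro ⟨a, β⟩ ht ⟨a', β'⟩ ht' heq
    simp only [Pset, coe_filter, mem_product, Set.mem_ofPred_eq] at ht ht'
    simp only at heq
    have hβ := hs β ht.1.2
    have hβ' := hs β' ht'.1.2
    have h1 : (Submodule.Quotient.mk a : Γ ⧸ U) + n • β =
        (Submodule.Quotient.mk a' : Γ ⧸ U) + n • β' := by
      have e1 : (Submodule.Quotient.mk a : Γ ⧸ U) + n • β =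
          Submodule.Quotient.mk (a + n • s β : Γ) := by
        rw [Submodule.Quotient.mk_add, Submodule.Quotient.mk_smul, hβ.2]
      have e2 : (Submodule.Quotient.mk a' : Γ ⧸ U) + n • β' =
          Submodule.Quotient.mk (a' + n • s β' : Γ) := by
        rw [Submodule.Quotient.mk_add, Submodule.Quotient.mk_smul, hβ'.2]
      rw [e1, e2, heq]
    obtain ⟨h2, h3⟩ := ht.2 _ (mem_bar ht'.1.1) _ ht'.1.2 h1
    subst h3
    have h4 : a = a' := by simpa using heq
    rw [h4]

/-- `n` separates all sums of cosets -/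
def Good (U : Submodule R Γ) (A : Finset Γ) (n : R) : Prop :=
  ∀ α ∈ bar U A, ∀ β ∈ bar U A, ∀ γ ∈ bar U A, ∀ δ ∈ bar U A,
    α + n • β = γ + n • δ → γ = α ∧ δ = β

theorem good_card (U : Submodule R Γ) (A : Finset Γ) (n : R) (h : Good U A n) :
    A.card * (bar U A).card ≤ (A + nd n A).card := by
  refine le_trans ?_ (Pset_card U A n)
  rw [← Finset.card_product]
  refine Finset.card_le_card ?_
  intro t ht
  simp only [Pset, mem_filter]
  refine ⟨ht, fun γ hγ δ hδ he => ?_⟩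
  rw [mem_product] at ht
  exact h _ (mem_bar ht.1) _ ht.2 _ hγ _ hδ he

/-- the collision predicate -/
def CP {G : Type*} [AddCommGroup G] [Module R G] (n : R) (α β γ δ : G) : Prop :=
  α + n • β = γ + n • δ ∧ ¬ (γ = α ∧ δ = β)

/-- the multipliers for which a given quadruple collides -/
theorem coll_count {U : Submodule R Γ} {A : Finset Γ} {Q : ℕ} {L : Finset R}
    (hL : IsMult Q U A L) (α β γ δ : Γ ⧸ U) (hα : α ∈ bar U A) (hβ : β ∈ bar U A)
    (hγ : γ ∈ bar U A) (hδ : δ ∈ bar U A) :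
    Q * (L.filter (fun n => CP n α β γ δ)).card ≤ L.card := by
  by_cases h : β - δ = 0
  · have h1 : β = δ := sub_eq_zero.1 h
    have : L.filter (fun n => CP n α β γ δ) = ∅ := by
      rw [Finset.filter_eq_empty_iff]
      rintro n - hn
      subst h1
      exact hn.2 ⟨(add_right_cancel hn.1).symm, rfl⟩
    rw [this]; simp
  · refine le_trans (Nat.mul_le_mul_left _ (Finset.card_le_card ?_))
      (hL.rare β hβ δ hδ h α hα γ hγ)
    intro n hn
    rw [mem_filter] at hn ⊢
    refine ⟨hn.1, ?_⟩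
    have := hn.2.1
    rw [smul_sub, sub_eq_sub_iff_add_eq_add, add_comm, this]

/-- few multipliers are bad -/
theorem bad_count (U : Submodule R Γ) (A : Finset Γ) (Q : ℕ) (L : Finset R)
    (hL : IsMult Q U A L) :
    Q * (L.filter (fun n => ¬ Good U A n)).card ≤ (bar U A).card ^ 4 * L.card := by
  have hT : (bar U A ×ˢ (bar U A ×ˢ (bar U A ×ˢ bar U A))).card = (bar U A).card ^ 4 := by
    rw [card_product, card_product, card_product]; ring
  rw [← hT]
  refine le_trans (Nat.mul_le_mul_left _ ?_) (Dil.double_count L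
    (bar U A ×ˢ (bar U A ×ˢ (bar U A ×ˢ bar U A)))
    (fun n t => CP n t.1 t.2.1 t.2.2.1 t.2.2.2) Q L.card ?_)
  · rw [Finset.card_filter]
    refine Finset.sum_le_sum fun n _ => ?_
    by_cases h : Good U A n
    · rw [if_neg (not_not.2 h)]
      exact Nat.zero_le _
    · rw [if_pos h]
      simp only [Good, not_forall] at h
      obtain ⟨α, hα, β, hβ, γ, hγ, δ, hδ, he, hne⟩ := h
      refine Finset.card_pos.2 ⟨(α, β, γ, δ), ?_⟩
      rw [mem_filter]
      exact ⟨mem_product.2 ⟨hα, mem_product.2 ⟨hβ, mem_product.2 ⟨hγ, hδ⟩⟩⟩, he, hne⟩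
  · intro t ht
    rw [mem_product, mem_product, mem_product] at ht
    exact coll_count hL _ _ _ _ ht.1 ht.2.1 ht.2.2.1 ht.2.2.2

/-- average number of collisions -/
theorem avg_coll (U : Submodule R Γ) (A : Finset Γ) (Q : ℕ) (L : Finset R)
    (hL : IsMult Q U A L) :
    ∃ n : R, ∃ W : ℕ, Q * W ≤ A.card * (bar U A).card ^ 3 ∧
      A.card * (bar U A).card ≤ (A + nd n A).card + W := by
  have hT : (A ×ˢ (bar U A ×ˢ (bar U A ×ˢ bar U A))).card =
      A.card * (bar U A).card ^ 3 := by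
    rw [card_product, card_product, card_product]; ring
  have h3 := Dil.double_count L (A ×ˢ (bar U A ×ˢ (bar U A ×ˢ bar U A)))
    (fun n t => CP n (Submodule.Quotient.mk t.1 : Γ ⧸ U) t.2.1 t.2.2.1 t.2.2.2) Q L.card (by
      intro t ht
      rw [mem_product, mem_product, mem_product] at ht
      exact coll_count hL _ _ _ _ (mem_bar ht.1) ht.2.1 ht.2.2.1 ht.2.2.2)
  rw [hT, Finset.mul_sum] at h3
  have h3' : ∑ n ∈ L, Q * ((A ×ˢ (bar U A ×ˢ (bar U A ×ˢ bar U A))).filter
      (fun t => CP n (Submodule.Quotient.mk t.1 : Γ ⧸ U) t.2.1 t.2.2.1 t.2.2.2)).card ≤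
      ∑ n ∈ L, A.card * (bar U A).card ^ 3 := by
    refine le_trans h3 (le_of_eq ?_)
    rw [Finset.sum_const, smul_eq_mul, mul_comm]
  obtain ⟨n, -, hn⟩ := Finset.exists_le_of_sum_le hL.nonempty h3'
  refine ⟨n, _, hn, ?_⟩
  refine le_trans ?_ (Nat.add_le_add_right (Pset_card U A n) _)
  rw [← Finset.card_product]
  have h4 : (A ×ˢ bar U A) ⊆ Pset U A n ∪
      ((A ×ˢ (bar U A ×ˢ (bar U A ×ˢ bar U A))).filter
      (fun t => CP n (Submodule.Quotient.mk t.1 : Γ ⧸ U) t.2.1 t.2.2.1 t.2.2.2)).image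
        (fun t => (t.1, t.2.1)) := by
    intro t ht
    rw [mem_union]
    by_cases h : t ∈ Pset U A n
    · exact Or.inl h
    · right
      rw [Pset, mem_filter, not_and] at h
      have h' := h ht
      simp only [not_forall] at h'
      obtain ⟨γ, hγ, δ, hδ, he, hne⟩ := h'
      rw [mem_image]
      rw [mem_product] at ht
      exact ⟨(t.1, t.2, γ, δ), mem_filter.2 ⟨mem_product.2 ⟨ht.1, mem_product.2 ⟨ht.2,
        mem_product.2 ⟨hγ, hδ⟩⟩⟩, he, hne⟩, rfl⟩
  exact le_trans (Finset.card_le_card h4) (le_trans (Finset.card_union_le _ _)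
    (Nat.add_le_add_left Finset.card_image_le _))

/-- weak rigidity -/
theorem weak_rigid (U : Submodule R Γ) [Finite U] (A : Finset Γ) (hA : A.Nonempty) (K : ℝ)
    (hdil : ∀ n : R, ((A + nd n A).card : ℝ) ≤ K * A.card) (Q : ℕ) (hG : LST Q U A)
    (hc : 2 * (bar U A).card ^ 2 ≤ Q) : ((bar U A).card : ℝ) ≤ 2 * K := by
  obtain ⟨L, hL⟩ := exists_mult U A Q hG
  obtain ⟨n, W, h5, h6⟩ := avg_coll U A Q L hL
  have hA0 : 0 < A.card := hA.card_pos
  have hB0 : 0 < (bar U A).card := (hA.image _).card_pos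
  set c := (bar U A).card with hcdef
  have h7 : 2 * W ≤ A.card * c := by
    have h8 : (2 * c ^ 2) * W ≤ A.card * c ^ 3 := le_trans (Nat.mul_le_mul_right _ hc) h5
    have h9 : c ^ 2 * (2 * W) ≤ c ^ 2 * (A.card * c) := by
      calc c ^ 2 * (2 * W) = (2 * c ^ 2) * W := by ring
        _ ≤ _ := h8
        _ = _ := by ring
    exact Nat.le_of_mul_le_mul_left h9 (by positivity)
  have h10 : ((A.card * c : ℕ) : ℝ) ≤ (A + nd n A).card + (W : ℝ) := by exact_mod_cast h6
  have h11 : (2 : ℝ) * W ≤ ((A.card * c : ℕ) : ℝ) := by exact_mod_cast h7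
  have h12 := hdil n
  push_cast at h10 h11
  have hA1 : (0 : ℝ) < A.card := by exact_mod_cast hA0
  have h13 : (A.card : ℝ) * c ≤ A.card * (2 * K) := by nlinarith
  exact le_of_mul_le_mul_left h13 hA1

/-- strong rigidity -/
theorem strong_rigid (U : Submodule R Γ) [Finite U] (A : Finset Γ) (hA : A.Nonempty) (K : ℝ)
    (hdil : ∀ n : R, ((A + nd n A).card : ℝ) ≤ K * A.card) (Q : ℕ) (hG : LST Q U A)
    (hc : (bar U A).card ^ 4 < Q) : ((bar U A).card : ℝ) ≤ K := by
  obtain ⟨L, hL⟩ := exists_mult U A Q hG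
  have h5 := bad_count U A Q L hL
  have h6 : ∃ n ∈ L, Good U A n := by
    by_contra hcon
    push Not at hcon
    have h7 : L.filter (fun n => ¬ Good U A n) = L := Finset.filter_true_of_mem hcon
    rw [h7] at h5
    exact absurd (Nat.le_of_mul_le_mul_right h5 hL.nonempty.card_pos) (by omega)
  obtain ⟨n, -, hn⟩ := h6
  have h7 : ((A.card * (bar U A).card : ℕ) : ℝ) ≤ (A + nd n A).card := by
    exact_mod_cast good_card U A n hn
  have hA1 : (0 : ℝ) < A.card := by exact_mod_cast hA.card_pos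
  have h8 := hdil n
  push_cast at h7
  have h9 : (A.card : ℝ) * (bar U A).card ≤ A.card * K := by linarith
  exact le_of_mul_le_mul_left h9 hA1

end Pool.Agent.TH414.Mod
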